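import Pool.Agent.helper36.PP.SpecL

/-!
# Project pp: (MP_70a088_an), FLC: line fields, qualitative form
-/

set_option autoImplicit false

open Complex Metric Set Filter Topology MeasureTheory MPS MQ Pool.Agent.helper98.ILF

noncomputable section

namespace PPS

theorem FLC_near (ρ ζ : ℂ) (δ : ℝ) (hζ : ‖ζ‖ = 1) (h1 : 1 < ‖ρ‖) (h2 : ‖ρ - ζ‖ < δ) :
    ‖ρ‖ - 1 < δ ∧ ‖ζ - 1‖ - 2 * δ ≤ ‖ρ / ‖ρ‖ - 1‖ := by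
  have h3 : ‖ρ‖ - 1 ≤ ‖ρ - ζ‖ := by
    have := norm_sub_norm_le ρ ζ
    rw [hζ] at this
    exact this
  have hpos : 0 < ‖ρ‖ := by linarith
  have hne : (‖ρ‖ : ℂ) ≠ 0 := by
    exact_mod_cast hpos.ne'
  have h4 : ‖ρ / ‖ρ‖ - ρ‖ = ‖ρ‖ - 1 := by
    have h5 : ρ / ‖ρ‖ - ρ = (ρ / ‖ρ‖) * ((1 - ‖ρ‖ : ℝ) : ℂ) := by
      push_cast
      field_simp
    rw [h5, norm_mul, norm_div, Complex.norm_real, Complex.norm_real, Real.norm_eq_abs,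
      Real.norm_eq_abs, abs_of_pos hpos, div_self hpos.ne', one_mul, abs_of_neg (by linarith)]
    ring
  refine ⟨by linarith, ?_⟩
  have h6 : ‖ζ - 1‖ ≤ ‖ζ - ρ‖ + ‖ρ - ρ / ‖ρ‖‖ + ‖ρ / ‖ρ‖ - 1‖ := by
    have : ζ - 1 = (ζ - ρ) + (ρ - ρ / ‖ρ‖) + (ρ / ‖ρ‖ - 1) := by ring
    rw [this]
    exact norm_add₃_le
  rw [norm_sub_rev ζ ρ, norm_sub_rev ρ (ρ / ‖ρ‖), h4] at h6
  linarith

theorem FLC (hFL : FL_stmt) : FLC_stmt := by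
  rintro f ζ hf hζ hζ1 hper ⟨μ, hμ, hl⟩
  have hd : 0 < ‖ζ - 1‖ := norm_pos_iff.2 (sub_ne_zero.2 hζ1)
  obtain ⟨η, hη, h⟩ := hFL f hf μ hμ hl (‖ζ - 1‖ / 2) (by linarith)
  obtain ⟨k, z, hc, h1, h2⟩ := hper (min η (‖ζ - 1‖ / 4)) (lt_min hη (by linarith))
  obtain ⟨h3, h4⟩ := FLC_near _ ζ _ hζ h1 h2
  have h5 : min η (‖ζ - 1‖ / 4) ≤ ‖ζ - 1‖ / 4 := min_le_right _ _
  have h6 : min η (‖ζ - 1‖ / 4) ≤ η := min_le_left _ _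
  have h7 := h k z hc h1 (by linarith)
  have h8 := Real.log_le_sub_one_of_pos (lt_trans one_pos h1)
  linarith

end PPS
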