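import Pool.Agent.helper36.PP.SpecA
import Pool.Agent.helper21.MP.NGF

/-!
# Project pp: (MP_70a088_an), NGFA: bound of a flat extension (cycles in the disc of radius `ra`)
-/

set_option autoImplicit false

open Complex Metric Set Filter Topology MeasureTheory MPS

noncomputable section

namespace PPS

theorem NGFA : NGFA_stmt := by
  intro ρ₀ ra hρ0 hρ1 hra
  set q : ℝ := Real.exp (-(ρ₀ / 16)) with hq
  have hq1 : q < 1 := by
    rw [hq, Real.exp_lt_one_iff]
    linarith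
  have hq0 : 0 < q := Real.exp_pos _
  set M : ℝ := 2 * Real.exp (4000 / (1 - q)) with hM
  have hM0 : 0 < M := by positivity
  refine ⟨ra + 1 + 2 * ra * Real.exp (Real.exp 1500 * (1 + M)), ?_, ?_⟩
  · have := mul_pos (mul_pos two_pos hra) (Real.exp_pos (Real.exp 1500 * (1 + M)))
    linarith
  intro k _ b g i ψ χ y hk hinj hb hPN hNat hEq w hw
  have : Fact (1 < k) := ⟨by omega⟩
  have hli : i + 1 ≠ i := by
    intro h
    exact one_ne_zero (add_left_cancel (h.trans (add_zero i).symm))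
  set l : ZMod k := i + 1 with hl
  set D : ℂ := b i - b l with hD
  have hD0 : D ≠ 0 := sub_ne_zero.mpr (hinj.ne hli.symm)
  have hD8 : ‖D‖ ≤ 2 * ra := by
    calc ‖D‖ ≤ ‖b i‖ + ‖b l‖ := norm_sub_le _ _
      _ ≤ ra + ra := add_le_add (hb i) (hb l)
      _ = 2 * ra := by ring
  -- the pole map
  set w₀ : ℂ := (y : ℂ) * I - ((ρ₀ / 16 : ℝ) : ℂ) with hw₀
  set u₀ : ℂ := Complex.exp w₀ with hu₀
  have hw₀re : w₀.re = -(ρ₀ / 16) := by
    rw [hw₀]
    simp
  have hu₀n : ‖u₀‖ = q := by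
    rw [hu₀, Complex.norm_exp, hw₀re]
  set F₀ : ℂ → ℂ := fun u => (ψ u - b l) / D with hF₀
  have hF₀d : DifferentiableOn ℂ F₀ (ball 0 1) := (hPN.diff.sub_const _).div_const _
  have hF₀0 : ∀ u ∈ ball (0 : ℂ) 1, F₀ u ≠ 0 := by
    intro u hu h0
    rw [hF₀] at h0
    rcases eq_or_ne u 0 with rfl | hu0
    · simp only at h0
      rw [hPN.val] at h0
      exact div_ne_zero hD0 hD0 h0
    · exact div_ne_zero (sub_ne_zero.mpr (hPN.av u hu hu0 l)) hD0 h0
  have hF₀one : F₀ 0 = 1 := by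
    simp only [hF₀]
    rw [hPN.val]
    exact div_self hD0
  have hF₀1 : ∀ u ∈ ball (0 : ℂ) 1, F₀ u = 1 → u = 0 := by
    intro u hu h1
    by_contra hu0
    simp only [hF₀] at h1
    rw [div_eq_one_iff_eq hD0, hD] at h1
    exact hPN.av u hu hu0 i (by linear_combination h1)
  obtain ⟨s, hsd, hs0, hs⟩ := Pool.Agent.helper98.ILF.exists_lift_pow (n := 2) two_ne_zero (w := 0) (u := 1) one_pos
    hF₀d hF₀0 (by rw [hF₀one]; norm_num)
  have hS := MPS.NGF_gron (F := fun u => -s u) (a := 0) (b := u₀) (r := 1 - q) (by linarith) (by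
    intro t ht
    have hsub : ball (0 + (t : ℂ) * (u₀ - 0)) (1 - q) ⊆ ball (0 : ℂ) 1 := by
      intro z hz
      rw [mem_ball, dist_eq_norm] at hz
      rw [mem_ball, dist_zero_right]
      have h1 : ‖(t : ℂ) * u₀‖ ≤ q := by
        rw [norm_mul, hu₀n, Complex.norm_real, Real.norm_eq_abs, abs_of_nonneg ht.1]
        calc t * q ≤ 1 * q := mul_le_mul_of_nonneg_right ht.2 hq0.le
          _ = q := one_mul q
      have h2 : z = (z - (0 + (t : ℂ) * (u₀ - 0))) + (t : ℂ) * u₀ := by ring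
      rw [h2]
      refine (norm_add_le _ _).trans_lt ?_
      linarith
    refine ⟨(hsd.mono hsub).neg, fun z hz => ⟨?_, ?_⟩⟩
    · intro h0
      have h1 := hs z (hsub hz)
      have : s z = 0 := neg_eq_zero.mp h0
      rw [this] at h1
      exact hF₀0 z (hsub hz) (by rw [← h1]; norm_num)
    · intro h1
      have h2 := hs z (hsub hz)
      have h3 : s z = -1 := by linear_combination -h1
      rw [h3] at h2
      have hz0 := hF₀1 z (hsub hz) (by rw [← h2]; norm_num)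
      rw [hz0, hs0] at h3
      norm_num at h3)
  -- the bound at `u₀`
  have hF₀u₀ : |Real.log ‖F₀ u₀‖| ≤ M := by
    have hu₀b : u₀ ∈ ball (0 : ℂ) 1 := by
      rw [mem_ball, dist_zero_right, hu₀n]
      exact hq1
    rw [← hs u₀ hu₀b, norm_pow, Real.log_pow]
    have h1 : 1 + |Real.log ‖s u₀‖| ≤ Real.exp (4000 / (1 - q)) := by
      have h2 : 1 + |Real.log ‖-s u₀‖| ≤ Real.exp (4000 / (1 - q) * ‖u₀ - 0‖) * (1 + |Real.log ‖-s 0‖|) := hS
      rw [hs0, norm_neg, norm_neg, norm_one, Real.log_one, abs_zero, add_zero, mul_one, sub_zero, hu₀n] at h2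
      refine h2.trans (Real.exp_le_exp.mpr ?_)
      have : 0 ≤ 4000 / (1 - q) := by
        have : 0 < 1 - q := by linarith
        positivity
      nlinarith
    rw [abs_mul]
    push_cast
    rw [abs_two, hM]
    linarith [abs_nonneg (Real.log ‖s u₀‖)]
  -- the flat disc
  set F : ℂ → ℂ := fun v => (χ v - b l) / D with hF
  have hFw₀ : F w₀ = F₀ u₀ := by
    simp only [hF, hF₀]
    rw [hEq (show w₀ ∈ HP 0 by
      show w₀.re < -0
      rw [hw₀re]
      linarith)]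
    rfl
  have hdist0 : ‖w₀ - (y : ℂ) * I‖ = ρ₀ / 16 := by
    rw [hw₀, sub_sub_cancel_left, norm_neg, Complex.norm_real, Real.norm_eq_abs, abs_of_pos (by positivity)]
  have hw' : ‖w - (y : ℂ) * I‖ < ρ₀ / 8 := by
    rwa [mem_ball, dist_eq_norm] at hw
  have hG := MPS.NGF_gron (F := F) (a := w₀) (b := w) (r := ρ₀ / 2) (by positivity) (by
    intro t ht
    have hsub : ball (w₀ + (t : ℂ) * (w - w₀)) (ρ₀ / 2) ⊆ HP 0 ∪ ball ((y : ℂ) * I) ρ₀ := by
      intro z hz
      right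
      rw [mem_ball, dist_eq_norm] at hz ⊢
      have h1 : z - (y : ℂ) * I = (z - (w₀ + (t : ℂ) * (w - w₀))) + ((1 - t : ℝ) : ℂ) * (w₀ - (y : ℂ) * I) +
          (t : ℂ) * (w - (y : ℂ) * I) := by
        push_cast
        ring
      rw [h1]
      have h2 : ‖((1 - t : ℝ) : ℂ) * (w₀ - (y : ℂ) * I)‖ ≤ ρ₀ / 16 := by
        rw [norm_mul, hdist0, Complex.norm_real, Real.norm_eq_abs, abs_of_nonneg (by linarith [ht.2])]
        nlinarith [ht.1, ht.2]
      have h3 : ‖(t : ℂ) * (w - (y : ℂ) * I)‖ ≤ ρ₀ / 8 := by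
        rw [norm_mul, Complex.norm_real, Real.norm_eq_abs, abs_of_nonneg ht.1]
        nlinarith [ht.1, ht.2, norm_nonneg (w - (y : ℂ) * I)]
      calc ‖(z - (w₀ + (t : ℂ) * (w - w₀))) + ((1 - t : ℝ) : ℂ) * (w₀ - (y : ℂ) * I) + (t : ℂ) * (w - (y : ℂ) * I)‖
          ≤ ‖(z - (w₀ + (t : ℂ) * (w - w₀)))‖ + ‖((1 - t : ℝ) : ℂ) * (w₀ - (y : ℂ) * I)‖ +
            ‖(t : ℂ) * (w - (y : ℂ) * I)‖ := norm_add₃_le
        _ < ρ₀ := by linarith
    refine ⟨((hNat.diff.mono hsub).sub_const _).div_const _, fun z hz => ⟨?_, ?_⟩⟩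
    · exact div_ne_zero (sub_ne_zero.mpr (hNat.av z (hsub hz) l)) hD0
    · intro h1
      simp only [hF] at h1
      rw [div_eq_one_iff_eq hD0, hD] at h1
      exact hNat.av z (hsub hz) i (by linear_combination h1))
  rw [hFw₀] at hG
  have hFw : |Real.log ‖F w‖| ≤ Real.exp 1500 * (1 + M) := by
    have h1 : Real.exp (4000 / (ρ₀ / 2) * ‖w - w₀‖) ≤ Real.exp 1500 := by
      refine Real.exp_le_exp.mpr ?_
      have h2 : ‖w - w₀‖ ≤ 3 * ρ₀ / 16 := by
        have : w - w₀ = (w - (y : ℂ) * I) - (w₀ - (y : ℂ) * I) := by ring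
        rw [this]
        refine (norm_sub_le _ _).trans ?_
        rw [hdist0]
        linarith
      calc 4000 / (ρ₀ / 2) * ‖w - w₀‖ ≤ 4000 / (ρ₀ / 2) * (3 * ρ₀ / 16) :=
            mul_le_mul_of_nonneg_left h2 (by positivity)
        _ = 1500 := by
            field_simp
            norm_num
    have h3 : Real.exp (4000 / (ρ₀ / 2) * ‖w - w₀‖) * (1 + |Real.log ‖F₀ u₀‖|) ≤ Real.exp 1500 * (1 + M) :=
      mul_le_mul h1 (by linarith) (by positivity) (Real.exp_pos _).le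
    linarith
  have hFn : ‖F w‖ ≤ Real.exp (Real.exp 1500 * (1 + M)) := by
    have hFw0 : 0 < ‖F w‖ := by
      rw [norm_pos_iff]
      refine div_ne_zero (sub_ne_zero.mpr (hNat.av w (Or.inr ?_) l)) hD0
      rw [mem_ball, dist_eq_norm]
      linarith
    rw [← Real.log_le_iff_le_exp hFw0]
    exact (le_abs_self _).trans hFw
  have hχ : χ w = b l + D * F w := by
    simp only [hF]
    field_simp
    ring
  rw [hχ]
  have h9 : ‖D * F w‖ ≤ 2 * ra * Real.exp (Real.exp 1500 * (1 + M)) := by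
    rw [norm_mul]
    exact mul_le_mul hD8 hFn (norm_nonneg _) (by positivity)
  calc ‖b l + D * F w‖ ≤ ‖b l‖ + ‖D * F w‖ := norm_add_le _ _
    _ ≤ ra + 2 * ra * Real.exp (Real.exp 1500 * (1 + M)) := add_le_add (hb l) h9
    _ < ra + 1 + 2 * ra * Real.exp (Real.exp 1500 * (1 + M)) := by linarith

end PPS
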