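import Pool.Agent.helper57.PP.Spec

/-! Row pp:MC: a segment cut off by a chord contains a vertex without chords. -/

set_option autoImplicit false

namespace Pool.Agent.helper57.PP

open Finset

theorem MC_mem {W : Type} [DecidableEq W] {C A : List W} {p q : W} {M B : List W}
    (hC : C = A ++ p :: (M ++ q :: B)) (h : ({p, q} : Finset W) ∉ pe C) : M ≠ [] := by
  rintro rfl
  exact h (mem_pe.2 ⟨A, p, q, B, hC, rfl⟩)

theorem MC_aux (h1 : SEP_stmt) {W : Type} [DecidableEq W] {T R : Finset (Finset W)} {a z : W}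
    {bs ts : List W} {Bf : Finset W} {C : List W} (hD : Disc T a z bs ts)
    (hS : St T a z bs R C) (hBf : ∀ b ∈ Bf, b ∈ pth a bs z) :
    ∀ (n : ℕ) (A1 : List W) (x : W) (M : List W) (y : W) (B : List W), M.length ≤ n →
      C = A1 ++ x :: (M ++ y :: B) → M ≠ [] → {x, y} ∈ edges R → x ∉ Bf → y ∉ Bf →
      ∃ v ∈ M, v ∉ pth a bs z ∧ (∀ b ∈ Bf, {v, b} ∉ edges T) ∧
        ∀ y' ∈ C, {v, y'} ∈ edges T → {v, y'} ∈ pe C := by
  intro n
  induction n with
  | zero =>
    intro A1 x M y B hn _ hM
    exact absurd (List.length_eq_zero_iff.1 (Nat.le_zero.1 hn)) hM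
  | succ n ih =>
    intro A1 x M y B hn hC hM hxy hx hy
    have hSEP : ∀ v ∈ M, v ∉ pth a bs z ∧ ∀ w, (w ∈ C ∨ w ∈ pth a bs z) →
        {v, w} ∈ edges T → w = x ∨ w = y ∨ w ∈ M := by
      have := h1 W T R a z bs ts A1 x M y B hD (hC ▸ hS) hM hxy
      rw [← hC] at this
      exact this
    have hMBf : ∀ v ∈ M, v ∉ Bf := fun v hv h => (hSEP v hv).1 (hBf v h)
    by_cases h : ∃ v ∈ M, ∃ y' ∈ C, {v, y'} ∈ edges T ∧ {v, y'} ∉ pe C
    · obtain ⟨v, hv, y', hy', hT, hpe⟩ := h
      have hvC : v ∈ C := by rw [hC]; simp [hv]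
      have hR : {v, y'} ∈ edges R := (hS.up v hvC y' hy' hT).resolve_right hpe
      have hne : v ≠ y' := edges_ne hT
      have hR' : {y', v} ∈ edges R := edges_comm hR
      have hpe' : ({y', v} : Finset W) ∉ pe C := by rwa [Finset.pair_comm]
      have hvBf := hMBf v hv
      have key : ∀ (A' : List W) (p : W) (M' : List W) (q : W) (B' : List W),
          M'.length ≤ n → (∀ w ∈ M', w ∈ M) → C = A' ++ p :: (M' ++ q :: B') →
          ({p, q} : Finset W) ∉ pe C → {p, q} ∈ edges R → p ∉ Bf → q ∉ Bf →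
          ∃ v ∈ M, v ∉ pth a bs z ∧ (∀ b ∈ Bf, {v, b} ∉ edges T) ∧
            ∀ y' ∈ C, {v, y'} ∈ edges T → {v, y'} ∈ pe C := by
        intro A' p M' q B' h2 h3 h4 h5 h6 h7 h8
        obtain ⟨w, hw, hw'⟩ := ih A' p M' q B' h2 h4 (MC_mem h4 h5) h6 h7 h8
        exact ⟨w, h3 w hw, hw'⟩
      obtain ⟨M1, M2, hM12⟩ := List.append_of_mem hv
      rcases (hSEP v hv).2 y' (Or.inl hy') hT with rfl | rfl | hyM
      · refine key A1 y' M1 v (M2 ++ y :: B) ?_ ?_ ?_ hpe' hR' hx hvBf
        · rw [hM12] at hn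
          simp only [List.length_append, List.length_cons] at hn
          omega
        · intro w hw; rw [hM12]; simp [hw]
        · rw [hC, hM12]; simp
      · refine key (A1 ++ x :: M1) v M2 y' B ?_ ?_ ?_ hpe hR hvBf hy
        · rw [hM12] at hn
          simp only [List.length_append, List.length_cons] at hn
          omega
        · intro w hw; rw [hM12]; simp [hw]
        · rw [hC, hM12]; simp
      · have hyBf := hMBf y' hyM
        have hyM' : y' ∈ M1 ∨ y' ∈ M2 := by
          rw [hM12] at hyM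
          simp only [List.mem_append, List.mem_cons] at hyM
          rcases hyM with h | h | h
          · exact Or.inl h
          · exact absurd h.symm hne
          · exact Or.inr h
        rcases hyM' with hyM' | hyM'
        · obtain ⟨M3, M4, hM34⟩ := List.append_of_mem hyM'
          refine key (A1 ++ x :: M3) y' M4 v (M2 ++ y :: B) ?_ ?_ ?_ hpe' hR' hyBf hvBf
          · rw [hM12, hM34] at hn
            simp only [List.length_append, List.length_cons] at hn
            omega
          · intro w hw; rw [hM12, hM34]; simp [hw]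
          · rw [hC, hM12, hM34]; simp
        · obtain ⟨M3, M4, hM34⟩ := List.append_of_mem hyM'
          refine key (A1 ++ x :: M1) v M3 y' (M4 ++ y :: B) ?_ ?_ ?_ hpe hR hvBf hyBf
          · rw [hM12, hM34] at hn
            simp only [List.length_append, List.length_cons] at hn
            omega
          · intro w hw; rw [hM12, hM34]; simp [hw]
          · rw [hC, hM12, hM34]; simp
    · obtain ⟨v, hv⟩ := List.exists_mem_of_ne_nil M hM
      refine ⟨v, hv, (hSEP v hv).1, ?_, ?_⟩
      · intro b hb hvb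
        rcases (hSEP v hv).2 b (Or.inr (hBf b hb)) hvb with rfl | rfl | hbM
        · exact hx hb
        · exact hy hb
        · exact hMBf b hbM hb
      · intro y' hy' hT
        by_contra hpe
        exact h ⟨v, hv, y', hy', hT, hpe⟩

theorem MC (h1 : SEP_stmt) : MC_stmt := by
  intro W _ T R a z bs ts Bf A1 x M y B hD hS hM hxy hBf hx hy
  exact MC_aux h1 hD hS hBf M.length A1 x M y B le_rfl rfl hM hxy hx hy

end Pool.Agent.helper57.PP
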